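import Pool.Agent.Q75.IS.Main
import Pool.Agent.Q75.IS.EXIT
import Pool.Agent.Q75.IS.EL
import Pool.Agent.Q53.IS.EBM
import Pool.Agent.Q53.IS.GRE
import Pool.Agent.Q53.IS.INV
import Pool.Agent.Q53.IS.LISX
import Pool.Agent.Q53.IS.STA
import Pool.Agent.Q53.IS.THIN
import Pool.Agent.Q53.IS.UP
import Pool.Agent.Q53.IS.UV
import Pool.Agent.Q179.IS.CA
import Pool.Agent.Q179.IS.CB
import Pool.Agent.Q179.IS.FI
import Pool.Agent.Q179.IS.Grid
import Pool.Agent.Q179.IS.Law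
import Pool.Agent.Q179.IS.Loss
import Pool.Agent.Q275.IS.AS
import Pool.Agent.Q275.IS.FS
import Pool.Agent.Q299.IS.Era
import Pool.Agent.Q75.IS.BND
import Pool.Agent.Q75.IS.LBM

/-!
MP_6ef346_pr, Q1: for every law `p` on the integers the longest strictly increasing subsequence of `n`
independent samples satisfies `L_n / f_n → 1` almost surely.
-/

set_option autoImplicit false

open MeasureTheory ProbabilityTheory Filter Topology
open Pool.Agent.Q75.IS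

namespace Pool.Agent.Results.MP_6ef346_pr.AllDistributions

/-- for every probability distribution `p` on the integers, `L_n / f_n → 1` almost surely -/
theorem result {Ω : Type} [MeasurableSpace Ω] (μ : Measure Ω) [IsProbabilityMeasure μ]
    (p : ℕ → ℝ) (hp : ∀ i, 0 ≤ p i) (hsum : HasSum p 1)
    (X : ℕ → Ω → ℕ) (hX : ∀ k, Measurable (X k)) (hind : iIndepFun X μ)
    (hlaw : ∀ k i, μ.real (X k ⁻¹' {i}) = p i) :
    ∀ᵐ ω ∂μ, Tendsto (fun n : ℕ => (LIS (fun k => X k ω) n : ℝ) / fI p n) atTop (𝓝 1) := by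
  have hERA := Pool.Agent.Q299.IS.t_ERA
  have hVAR := Pool.Agent.Q299.IS.t_VAR hERA Pool.Agent.Q299.IS.t_ES
  have hDEL := Pool.Agent.Q299.IS.t_DEL hERA
  have hEBM := Pool.Agent.Q53.IS.t_EBM
  have hSRC := Pool.Agent.Q53.IS.t_SRC
  have hSTA := Pool.Agent.Q53.IS.t_STA
  have hINV := Pool.Agent.Q53.IS.t_INV
  have hUP := Pool.Agent.Q53.IS.t_UP hSTA hEBM hSRC Pool.Agent.Q53.IS.t_UDET hINV
  have hTHIN := Pool.Agent.Q53.IS.t_THIN hINV
  have hUPM := Pool.Agent.Q53.IS.t_UPM hTHIN hUP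
  have hGE := Pool.Agent.Q53.IS.t_GE Pool.Agent.Q53.IS.t_GRE
  have hEXIT := t_EXIT hVAR hEBM hSRC hSTA Pool.Agent.Q53.IS.t_VDET hINV hUP
    Pool.Agent.Q53.IS.t_MAXE Pool.Agent.Q179.IS.t_GRID
  have hCA := Pool.Agent.Q179.IS.t_CA hDEL hGE
  have hCB := Pool.Agent.Q179.IS.t_CB hEXIT hUP Pool.Agent.Q179.IS.t_LOSS1
    Pool.Agent.Q179.IS.t_LOSS2 hDEL hGE
  have hLBM := t_LBM Pool.Agent.Q179.IS.t_AST hCA hCB hTHIN
  have hLX := Pool.Agent.Q53.IS.t_LISX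
  have hEL := t_EL Pool.Agent.Q179.IS.t_LAW hLX hVAR
  have hB := t_BND hEL hUPM hLBM Pool.Agent.Q179.IS.t_FM
  exact main hLX hEL hB Pool.Agent.Q179.IS.t_FI Pool.Agent.Q275.IS.t_AS Pool.Agent.Q275.IS.t_FS
    Ω μ X p ⟨hp, hsum, hX, hind, hlaw⟩

end Pool.Agent.Results.MP_6ef346_pr.AllDistributions
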